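import Pool.Agent.Helper82_SKQ.Asm
import Pool.Agent.Helper82_SKQ.Fin
import Pool.Agent.Helper53_SKQ.DG2
import Pool.Agent.Helper55_SKQ.MOL

/-!
# Diffeomorphic approximation with uniformly bounded dilatation: small oscillation

Let `n ≥ 2`. There are `κ > 0` and `ε(H) > 0` such that every element of the group of
homeomorphisms of the closed unit ball generated by the `δ`-monotone ones (all `δ > 0`), those which
are `κ`-close to linear maps of bounded distortion at arbitrarily small hyperbolic scales, and those
whose distortion tensor has small oscillation (`SmallOsc (ε H) H`) at some hyperbolic scale, is, on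
the open unit ball, a uniform limit of `C^∞` diffeomorphisms of the open unit ball onto itself
which are `K`-quasiconformal with one constant `K`. In particular this holds for all compositions
of `(1 + ε(1))`-quasiconformal homeomorphisms.
-/

namespace Pool.Agent.Results.MP_183729_an.SmallOscillation

open Helper22QC Pool.Agent.SKQ

theorem result (n : ℕ) (hn : 2 ≤ n) : ∃ κ : ℝ, 0 < κ ∧ ∃ ε : ℝ → ℝ, (∀ H, 0 < ε H) ∧
    ∀ f ∈ Subgroup.closure (Gen n κ ∪ {f : HB n | ∃ H : ℝ, SmallOsc (ε H) H f}),
      ∃ K : ℝ, Approx K f :=
  H82F.fin (H82A.nafAll H55.mol H53.dg2) n hn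

end Pool.Agent.Results.MP_183729_an.SmallOscillation
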